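import Mathlib

set_option autoImplicit false

/-! A set of points of the Cantor space that is uncountable and contains no injective continuous
image of the Cantor space. -/

namespace Pool.Agent.W642.HG

open Cardinal Set

/-- A family of large sets has an injective choice function. -/
theorem exists_sdr {I α : Type} (S : I → Set α) (hS : ∀ i, #I ≤ #(S i)) :
    ∃ c : I → α, Function.Injective c ∧ ∀ i, c i ∈ S i := by
  classical
  obtain ⟨r, wo, hr⟩ := Cardinal.exists_ord_eq I
  have hlt : ∀ i, #{j // r j i} < #I := by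
    intro i
    have := Cardinal.card_typein_lt i hr
    rwa [Ordinal.card_typein] at this
  have hex : ∀ (i : I) (f : {j // r j i} → α), ∃ a ∈ S i, a ∉ range f := by
    intro i f
    by_contra hcon
    push Not at hcon
    have h1 : #(S i) ≤ #(range f) := mk_le_mk_of_subset hcon
    have h2 : #(range f) ≤ #{j // r j i} := mk_range_le
    exact absurd ((hS i).trans (h1.trans h2)) (not_le.2 (hlt i))
  choose g hg1 hg2 using hex
  let c : I → α := wo.wf.fix fun i f => g i fun j => f j.1 j.2
  have hc : ∀ i, c i = g i fun j => c j.1 := fun i => wo.wf.fix_eq _ i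
  refine ⟨c, ?_, fun i => ?_⟩
  · have key : ∀ i j, r j i → c i ≠ c j := by
      intro i j hji h
      apply hg2 i (fun j => c j.1)
      rw [← hc i, h]
      exact ⟨⟨j, hji⟩, rfl⟩
    intro i j hij
    rcases trichotomous_of r i j with h | h | h
    · exact absurd hij.symm (key j i h)
    · exact h
    · exact absurd hij (key i j h)
  · rw [hc i]
    exact hg1 i _

/-- There is an uncountable set of points of the Cantor space that contains no injective continuous
image of the Cantor space. -/
theorem exists_bernstein : ∃ R : Set (ℕ → Bool), ¬ R.Countable ∧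
    ∀ e : (ℕ → Bool) → (ℕ → Bool), Continuous e → Function.Injective e → ∃ y, e y ∉ R := by
  classical
  let E := {e : (ℕ → Bool) → (ℕ → Bool) // Continuous e ∧ Function.Injective e}
  obtain ⟨u, hu⟩ := TopologicalSpace.exists_dense_seq (ℕ → Bool)
  have hE : #E ≤ 𝔠 := by
    have h1 : Function.Injective fun (e : E) (n : ℕ) => e.1 (u n) := by
      intro e e' h
      apply Subtype.ext
      exact Continuous.ext_on hu e.2.1 e'.2.1 (by
        rintro _ ⟨n, rfl⟩
        exact congrFun h n)
    refine (mk_le_of_injective h1).trans ?_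
    simp
  have hcard : #(ℕ → Bool) = 𝔠 := by simp
  let S : E ⊕ (ℕ → Bool) → Set (ℕ → Bool) := Sum.elim (fun e => range e.1) fun _ => univ
  have hS : ∀ i, #(E ⊕ (ℕ → Bool)) ≤ #(S i) := by
    intro i
    have h1 : #(E ⊕ (ℕ → Bool)) ≤ 𝔠 := by
      rw [mk_sum]
      simp only [lift_id, hcard]
      exact (add_le_add hE le_rfl).trans (by simp)
    refine h1.trans ?_
    rcases i with e | z
    · show 𝔠 ≤ #(range e.1)
      rw [mk_range_eq _ e.2.2, hcard]
    · show 𝔠 ≤ #(univ : Set (ℕ → Bool))
      rw [mk_univ, hcard]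
  obtain ⟨c, hc, hcS⟩ := exists_sdr S hS
  refine ⟨range fun z => c (Sum.inr z), ?_, ?_⟩
  · intro h
    have h1 : (fun z => c (Sum.inr z)).Injective := fun a b hab => Sum.inr_injective (hc hab)
    have h2 := (Cardinal.mk_range_eq _ h1)
    rw [hcard] at h2
    have h3 := h.le_aleph0
    rw [h2] at h3
    exact absurd h3 (not_le.2 aleph0_lt_continuum)
  · intro e he1 he2
    obtain ⟨y, hy⟩ := hcS (Sum.inl ⟨e, he1, he2⟩)
    refine ⟨y, ?_⟩
    rintro ⟨z, hz⟩
    have : c (Sum.inr z) = c (Sum.inl ⟨e, he1, he2⟩) := hz.trans hy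
    exact absurd (hc this) (by simp)

end Pool.Agent.W642.HG
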