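import Mathlib
import Pool.Agent.W642.HG.Bern

set_option autoImplicit false

/-! The space. -/

namespace Pool.Agent.W642.HG

open Set Filter Topology

/-- initial segments of an infinite path, most recent entry first -/
def ini (x : ℕ → Bool × ℕ) : ℕ → List (Bool × ℕ)
  | 0 => []
  | n + 1 => x n :: ini x n

@[simp] theorem ini_length (x : ℕ → Bool × ℕ) (n : ℕ) : (ini x n).length = n := by
  induction n with
  | zero => rfl
  | succ n ih => simp [ini, ih]

theorem ini_congr {x y : ℕ → Bool × ℕ} {n : ℕ} (h : ∀ i < n, x i = y i) : ini x n = ini y n := by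
  induction n with
  | zero => rfl
  | succ n ih => rw [ini, ini, h n (Nat.lt_succ_self n), ih fun i hi => h i (by omega)]

theorem ini_suffix (x : ℕ → Bool × ℕ) {m n : ℕ} (h : m ≤ n) : ini x m <:+ ini x n := by
  induction n, h using Nat.le_induction with
  | base => exact List.suffix_refl _
  | succ n _ ih => exact ih.trans (List.suffix_cons _ _)

theorem exists_ini (p : List (Bool × ℕ)) : ∃ x, ini x p.length = p := by
  induction p with
  | nil => exact ⟨fun _ => default, rfl⟩
  | cons a p ih =>
    obtain ⟨x, hx⟩ := ih
    refine ⟨Function.update x p.length a, ?_⟩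
    rw [List.length_cons, ini, Function.update_self]
    congr 1
    refine Eq.trans (ini_congr fun i hi => ?_) hx
    exact Function.update_of_ne (Nat.ne_of_lt hi) _ _

/-- The left end of the interval of a finite path. -/
noncomputable def left : List (Bool × ℕ) → ℝ
  | [] => 0
  | a :: p => left p + (if a.1 then 1 else 0) * (1 / 2) ^ (p.length + 1)

/-- The left end, the midpoint and the right end of the interval of a finite path. -/
noncomputable def val (p : List (Bool × ℕ)) (c : Fin 3) : ℝ :=
  left p + (c : ℕ) * (1 / 2) ^ (p.length + 1)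

/-- The points of the space. -/
inductive Pt (R : Set (ℕ → Bool)) : Type
  | node (p : List (Bool × ℕ)) (r : R) (c : Fin 3) : Pt R
  | br (x : ℕ → Bool × ℕ) (r : {r : ℕ → Bool // r ∉ R}) : Pt R

namespace Pt

variable {R : Set (ℕ → Bool)}

/-- the label -/
def lab : Pt R → (ℕ → Bool)
  | node _ r _ => r
  | br _ r => r

/-- the path of the point begins with the given finite path -/
def inP (u : List (Bool × ℕ)) : Pt R → Prop
  | node p _ _ => u <:+ p
  | br x _ => u = ini x u.length

/-- the value -/
noncomputable def f : Pt R → ℝ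
  | node p _ c => val p c
  | br x _ => ⨆ j, left (ini x j)

open Classical in
/-- the map that defines the topology -/
noncomputable def Φ (z : Pt R) :
    (List (Bool × ℕ) → Bool) × (ℕ → Bool) × ((ℕ → Bool) × ℝ → Bool) :=
  (fun u => decide (inP u z), lab z, fun e => decide (lab z = e.1 ∧ e.1 ∈ R ∧ f z = e.2))

noncomputable instance : TopologicalSpace (Pt R) := TopologicalSpace.induced Φ inferInstance

theorem continuous_Φ : Continuous (Φ : Pt R → _) := continuous_induced_dom

theorem continuous_lab : Continuous (lab : Pt R → _) :=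
  (continuous_fst.comp continuous_snd).comp continuous_Φ

theorem isClopen_inP (u : List (Bool × ℕ)) : IsClopen {z : Pt R | inP u z} := by
  have h : Continuous fun z : Pt R => (Φ z).1 u :=
    (continuous_apply u).comp (continuous_fst.comp continuous_Φ)
  have h2 : {z : Pt R | inP u z} = (fun z : Pt R => (Φ z).1 u) ⁻¹' {true} := by
    ext z
    simp [Φ]
  rw [h2]
  exact (isClopen_discrete _).preimage h

theorem isClopen_E (e : (ℕ → Bool) × ℝ) :
    IsClopen {z : Pt R | lab z = e.1 ∧ e.1 ∈ R ∧ f z = e.2} := by
  have h : Continuous fun z : Pt R => (Φ z).2.2 e :=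
    (continuous_apply e).comp ((continuous_snd.comp continuous_snd).comp continuous_Φ)
  have h2 : {z : Pt R | lab z = e.1 ∧ e.1 ∈ R ∧ f z = e.2} =
      (fun z : Pt R => (Φ z).2.2 e) ⁻¹' {true} := by
    ext z
    simp [Φ]
  rw [h2]
  exact (isClopen_discrete _).preimage h

theorem isClopen_cyl (r : ℕ → Bool) (k : ℕ) :
    IsClopen {z : Pt R | ∀ i < k, lab z i = r i} := by
  have h : {z : Pt R | ∀ i < k, lab z i = r i} =
      ⋂ i ∈ Finset.range k, (fun z : Pt R => lab z i) ⁻¹' {r i} := by
    ext z
    simp
  rw [h]
  exact isClopen_biInter_finset fun i _ =>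
    (isClopen_discrete _).preimage ((continuous_apply i).comp continuous_lab)

theorem inP_node_self (p : List (Bool × ℕ)) (r : R) (c : Fin 3) : inP p (node p r c) :=
  List.suffix_refl _

theorem inP_node_cons (a : Bool × ℕ) (p : List (Bool × ℕ)) (r : R) (c : Fin 3) :
    inP p (node (a :: p) r c) := List.suffix_cons _ _

/-- nested paths -/
theorem inP_of_suffix {u v : List (Bool × ℕ)} (h : u <:+ v) {z : Pt R} (hz : inP v z) :
    inP u z := by
  cases z with
  | node p r c => exact h.trans hz
  | br x r =>
    have h1 : v = ini x v.length := hz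
    have h2 : ini x u.length <:+ v := by
      rw [h1]
      exact ini_suffix x (by simpa using h.length_le)
    show u = ini x u.length
    exact (List.suffix_of_suffix_length_le h h2 (by simp)).eq_of_length (by simp)

/-- uniqueness of the initial path of given length -/
theorem inP_unique {u v : List (Bool × ℕ)} (h : u.length = v.length) {z : Pt R}
    (hu : inP u z) (hv : inP v z) : u = v := by
  cases z with
  | node p r c =>
    exact (List.suffix_of_suffix_length_le hu hv h.le).eq_of_length h
  | br x r =>
    have h1 : u = ini x u.length := hu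
    have h2 : v = ini x v.length := hv
    rw [h1, h2, h]

/-- Convergence to the points of finite type. -/
theorem tendsto_child (p : List (Bool × ℕ)) (r : R) (c c' : Fin 3) (i : Bool)
    (h : val ((i, 0) :: p) c' = val p c) :
    Tendsto (fun n => (node ((i, n) :: p) r c' : Pt R)) atTop (𝓝 (node p r c)) := by
  rw [nhds_induced, tendsto_comap_iff]
  refine Tendsto.prodMk_nhds ?_ (Tendsto.prodMk_nhds ?_ ?_)
  · rw [tendsto_pi_nhds]
    intro u
    refine tendsto_const_nhds.congr' ?_
    have h1 : ∀ᶠ n : ℕ in atTop, u ≠ (i, n) :: p := by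
      rcases u with _ | ⟨a, q⟩
      · exact Eventually.of_forall fun n => by simp
      · filter_upwards [eventually_gt_atTop a.2] with n hn hcon
        have := (List.cons.inj hcon).1
        rw [this] at hn
        exact lt_irrefl _ hn
    filter_upwards [h1] with n hn
    simp only [inP]
    congr 1
    rw [List.suffix_cons_iff, eq_iff_iff]
    exact ⟨fun h => Or.inr h, fun h => h.resolve_left hn⟩
  · exact tendsto_const_nhds
  · rw [tendsto_pi_nhds]
    intro e
    refine tendsto_const_nhds.congr fun n => ?_
    have h2 : val ((i, n) :: p) c' = val p c := by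
      rw [← h]
      rfl
    have h3 : f (node ((i, n) :: p) r c' : Pt R) = f (node p r c : Pt R) := h2
    have h4 : lab (node ((i, n) :: p) r c' : Pt R) = lab (node p r c : Pt R) := rfl
    exact decide_eq_decide.2 (by rw [h3, h4])

/-- The neighbourhoods of the points of infinite type. -/
theorem nhds_br (x : ℕ → Bool × ℕ) (r : {r : ℕ → Bool // r ∉ R}) {U : Set (Pt R)}
    (hU : U ∈ 𝓝 (br x r)) : ∃ j, ∀ z : Pt R, inP (ini x j) z → (∀ i < j, lab z i = r.1 i) →
      z ∈ U := by
  classical
  let W : ℕ → Set (Pt R) := fun j => {z | inP (ini x j) z ∧ ∀ i < j, lab z i = r.1 i}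
  have hW : Antitone W := by
    intro j k hjk z hz
    exact ⟨inP_of_suffix (ini_suffix x hjk) hz.1, fun i hi => hz.2 i (by omega)⟩
  have hb : (⨅ j, 𝓟 (W j)).HasBasis (fun _ => True) W := by
    apply Filter.hasBasis_iInf_principal
    exact directed_of_isDirected_le fun i j h => hW h
  have hle : (⨅ j, 𝓟 (W j)) ≤ 𝓝 (br x r) := by
    rw [nhds_induced, ← tendsto_iff_comap]
    refine Tendsto.prodMk_nhds ?_ (Tendsto.prodMk_nhds ?_ ?_)
    · rw [tendsto_pi_nhds]
      intro u
      refine tendsto_const_nhds.congr' ?_
      refine hb.eventually_iff.2 ⟨u.length, trivial, fun z hz => ?_⟩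
      have h1 : inP u z ↔ inP u (br x r : Pt R) := by
        constructor
        · intro h
          exact inP_unique (by simp) h hz.1
        · intro h
          have h3 : u = ini x u.length := h
          rw [h3]
          exact hz.1
      simp only [h1]
    · rw [tendsto_pi_nhds]
      intro i
      refine tendsto_const_nhds.congr' ?_
      refine hb.eventually_iff.2 ⟨i + 1, trivial, fun z hz => ?_⟩
      exact (hz.2 i (Nat.lt_succ_self i)).symm
    · rw [tendsto_pi_nhds]
      intro e
      refine tendsto_const_nhds.congr' ?_
      by_cases he : e.1 ∈ R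
      · have hne : r.1 ≠ e.1 := fun h => r.2 (h ▸ he)
        obtain ⟨i, hi⟩ := Function.ne_iff.1 hne
        refine hb.eventually_iff.2 ⟨i + 1, trivial, fun z hz => ?_⟩
        have h1 : lab z ≠ e.1 := by
          intro h
          apply hi
          rw [← h]
          exact (hz.2 i (Nat.lt_succ_self i)).symm
        have h2 : lab (br x r : Pt R) ≠ e.1 := hne
        simp only [h1, h2, false_and]
      · exact Eventually.of_forall fun z => by simp only [he, false_and, and_false]
  obtain ⟨j, -, hj⟩ := hb.mem_iff.1 (hle hU)
  exact ⟨j, fun z h1 h2 => hj ⟨h1, h2⟩⟩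

end Pt

end Pool.Agent.W642.HG
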