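import Mathlib
import Pool.Agent.W642.HG.Space

set_option autoImplicit false

/-! The key lemma. -/

namespace Pool.Agent.W642.HG

open Set Filter Topology

variable {R : Set (ℕ → Bool)}

/-- An uncountable set of labels has two condensation points. -/
theorem exists_two (C : Set R) (hC : ¬ C.Countable) : ∃ u ∈ C, ∃ v ∈ C, u ≠ v ∧
    ∀ k, ¬ {r ∈ C | ∀ i < k, r.1 i = u.1 i}.Countable ∧
      ¬ {r ∈ C | ∀ i < k, r.1 i = v.1 i}.Countable := by
  classical
  let D : Set R := {u ∈ C | ∃ k, {r ∈ C | ∀ i < k, r.1 i = u.1 i}.Countable}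
  have hD : D.Countable := by
    have h1 : D ⊆ ⋃ k : ℕ, ⋃ t : Fin k → Bool,
        {r : R | r ∈ C ∧ (∀ i : Fin k, r.1 i = t i) ∧
          {r ∈ C | ∀ i : Fin k, r.1 i = t i}.Countable} := by
      rintro u ⟨hu, k, hk⟩
      simp only [mem_iUnion]
      refine ⟨k, fun i => u.1 i, hu, fun i => rfl, hk.mono ?_⟩
      rintro r ⟨hr, h⟩
      exact ⟨hr, fun i hi => h ⟨i, hi⟩⟩
    refine (countable_iUnion fun k => countable_iUnion fun t => ?_).mono h1
    by_cases h : {r ∈ C | ∀ i : Fin k, r.1 i = t i}.Countable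
    · refine h.mono ?_
      rintro r ⟨h2, h3, -⟩
      exact ⟨h2, h3⟩
    · convert countable_empty (α := R) using 1
      ext r
      simp only [mem_ofPred_eq, mem_empty_iff_false, iff_false]
      exact fun hr => h hr.2.2
  have hCD : ¬ (C \ D).Countable := by
    intro h
    exact hC ((h.union hD).mono fun r hr => by
      by_cases h : r ∈ D
      · exact Or.inr h
      · exact Or.inl ⟨hr, h⟩)
  have hnt : (C \ D).Nontrivial := by
    by_contra h
    exact hCD (not_nontrivial_iff.1 h).countable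
  obtain ⟨u, hu, v, hv, huv⟩ := hnt
  refine ⟨u, hu.1, v, hv.1, huv, fun k => ⟨fun h => hu.2 ⟨hu.1, k, h⟩, fun h => hv.2 ⟨hv.1, k, h⟩⟩⟩

open Pt

theorem val_child_zero (p : List (Bool × ℕ)) (n : ℕ) :
    val ((false, n) :: p) 0 = val p 0 ∧ val ((false, n) :: p) 2 = val p 1 := by
  constructor
  · simp [val, left]
  · simp only [val, left, List.length_cons]
    norm_num
    ring

theorem val_child_one (p : List (Bool × ℕ)) (n : ℕ) :
    val ((true, n) :: p) 0 = val p 1 ∧ val ((true, n) :: p) 2 = val p 2 := by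
  constructor
  · simp only [val, left, List.length_cons]
    norm_num
  · simp only [val, left, List.length_cons]
    norm_num
    ring

/-- One step of the construction. -/
theorem step (g : C(Pt R, ℝ)) (p : List (Bool × ℕ)) (T : Set R) (hT : ¬ T.Countable)
    (hg : ∀ r ∈ T, g (node p r 0) ≠ g (node p r 2)) (N : ℕ) :
    ∃ k ≥ N, ∃ u v : ℕ → Bool, (∃ i < k, u i ≠ v i) ∧
      (∃ (a : Bool × ℕ) (T' : Set R), T' ⊆ T ∧ ¬ T'.Countable ∧ (∀ r ∈ T', ∀ i < k, r.1 i = u i) ∧
        ∀ r ∈ T', g (node (a :: p) r 0) ≠ g (node (a :: p) r 2)) ∧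
      (∃ (a : Bool × ℕ) (T' : Set R), T' ⊆ T ∧ ¬ T'.Countable ∧ (∀ r ∈ T', ∀ i < k, r.1 i = v i) ∧
        ∀ r ∈ T', g (node (a :: p) r 0) ≠ g (node (a :: p) r 2)) := by
  classical
  -- choose the half
  have h1 : ∃ (b : Bool) (C : Set R), C ⊆ T ∧ ¬ C.Countable ∧
      ∀ r ∈ C, ∃ n, g (node ((b, n) :: p) r 0) ≠ g (node ((b, n) :: p) r 2) := by
    have h2 : T ⊆ {r ∈ T | g (node p r 0) ≠ g (node p r 1)} ∪
        {r ∈ T | g (node p r 1) ≠ g (node p r 2)} := by
      intro r hr
      by_cases h : g (node p r 0) = g (node p r 1)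
      · exact Or.inr ⟨hr, fun h3 => hg r hr (h.trans h3)⟩
      · exact Or.inl ⟨hr, h⟩
    have h3 : ¬ {r ∈ T | g (node p r 0) ≠ g (node p r 1)}.Countable ∨
        ¬ {r ∈ T | g (node p r 1) ≠ g (node p r 2)}.Countable := by
      by_contra hcon
      push Not at hcon
      exact hT ((hcon.1.union hcon.2).mono h2)
    have h4 : ∀ (b : Bool) (c c' : Fin 3), val ((b, 0) :: p) 0 = val p c →
        val ((b, 0) :: p) 2 = val p c' → ∀ r, g (node p r c) ≠ g (node p r c') →
        ∃ n, g (node ((b, n) :: p) r 0) ≠ g (node ((b, n) :: p) r 2) := by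
      intro b c c' e1 e2 r hne
      by_contra hcon
      push Not at hcon
      have t1 := (g.continuous.tendsto _).comp (tendsto_child p r c 0 b e1)
      have t2 := (g.continuous.tendsto _).comp (tendsto_child p r c' 2 b e2)
      refine hne (tendsto_nhds_unique t1 (t2.congr fun n => (hcon n).symm))
    rcases h3 with h3 | h3
    · exact ⟨false, _, fun r hr => hr.1, h3, fun r hr =>
        h4 false 0 1 (val_child_zero p 0).1 (val_child_zero p 0).2 r hr.2⟩
    · exact ⟨true, _, fun r hr => hr.1, h3, fun r hr =>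
        h4 true 1 2 (val_child_one p 0).1 (val_child_one p 0).2 r hr.2⟩
  obtain ⟨b, C, hCT, hC, hCg⟩ := h1
  obtain ⟨u, hu, v, hv, huv, hcond⟩ := exists_two C hC
  have huv' : u.1 ≠ v.1 := fun h => huv (Subtype.ext h)
  obtain ⟨i, hi⟩ := Function.ne_iff.1 huv'
  obtain ⟨K, hK1, hK2⟩ : ∃ K, N ≤ K ∧ i < K := ⟨max N (i + 1), le_max_left _ _, by simp⟩
  refine ⟨K, hK1, u.1, v.1, ⟨i, hK2, hi⟩, ?_, ?_⟩
  · have h5 := (hcond K).1
    have h6 : ∃ n, ¬ {r ∈ C | (∀ j < K, r.1 j = u.1 j) ∧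
        g (node ((b, n) :: p) r 0) ≠ g (node ((b, n) :: p) r 2)}.Countable := by
      by_contra hcon
      push Not at hcon
      refine h5 ((countable_iUnion hcon).mono fun r hr => ?_)
      obtain ⟨n, hn⟩ := hCg r hr.1
      exact mem_iUnion.2 ⟨n, hr.1, hr.2, hn⟩
    obtain ⟨n, hn⟩ := h6
    exact ⟨(b, n), _, fun r hr => hCT hr.1, hn, fun r hr => hr.2.1, fun r hr => hr.2.2⟩
  · have h5 := (hcond K).2
    have h6 : ∃ n, ¬ {r ∈ C | (∀ j < K, r.1 j = v.1 j) ∧
        g (node ((b, n) :: p) r 0) ≠ g (node ((b, n) :: p) r 2)}.Countable := by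
      by_contra hcon
      push Not at hcon
      refine h5 ((countable_iUnion hcon).mono fun r hr => ?_)
      obtain ⟨n, hn⟩ := hCg r hr.1
      exact mem_iUnion.2 ⟨n, hr.1, hr.2, hn⟩
    obtain ⟨n, hn⟩ := h6
    exact ⟨(b, n), _, fun r hr => hCT hr.1, hn, fun r hr => hr.2.1, fun r hr => hr.2.2⟩

/-- The states of the construction. -/
structure St (g : C(Pt R, ℝ)) where
  p : List (Bool × ℕ)
  T : Set R
  unc : ¬ T.Countable
  bad : ∀ r ∈ T, g (node p r 0) ≠ g (node p r 2)

theorem stepS (g : C(Pt R, ℝ)) (s : St g) (N : ℕ) : ∃ s' : Bool → St g,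
    ∃ k ≥ N, ∃ u : Bool → ℕ → Bool, (∃ i < k, u false i ≠ u true i) ∧
      ∀ b, (∃ a, (s' b).p = a :: s.p) ∧ (s' b).T ⊆ s.T ∧ ∀ r ∈ (s' b).T, ∀ i < k, r.1 i = u b i := by
  obtain ⟨k, hk, u, v, h1, ⟨a, T, h2, h3, h4, h5⟩, a', T', h2', h3', h4', h5'⟩ :=
    step g s.p s.T s.unc s.bad N
  refine ⟨fun b => if b then ⟨a' :: s.p, T', h3', h5'⟩ else ⟨a :: s.p, T, h3, h5⟩, k, hk,
    fun b => if b then v else u, by simpa using h1, fun b => ?_⟩
  cases b
  · exact ⟨⟨a, rfl⟩, h2, h4⟩
  · exact ⟨⟨a', rfl⟩, h2', h4'⟩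

/-- The key lemma. -/
theorem key (hR : ∀ e : (ℕ → Bool) → (ℕ → Bool), Continuous e → Function.Injective e → ∃ y, e y ∉ R)
    (g : C(Pt R, ℝ)) (h : ∀ x (r : {r : ℕ → Bool // r ∉ R}), ∃ j, ∀ k ≥ j,
      {r' : R | (∀ i < j, r'.1 i = r.1 i) ∧
        g (node (ini x k) r' 0) ≠ g (node (ini x k) r' 2)}.Countable)
    (p0 : List (Bool × ℕ)) : {r : R | g (node p0 r 0) ≠ g (node p0 r 2)}.Countable := by
  classical
  by_contra hcon
  let s0 : St g := ⟨p0, _, hcon, fun r hr => hr⟩
  choose s' k hk u hu hs' using stepS g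
  let S : (ℕ → Bool) → ℕ → St g := fun y n =>
    Nat.rec s0 (fun n s => s' s (n + 1) (y n)) n
  have hS : ∀ y n, S y (n + 1) = s' (S y n) (n + 1) (y n) := fun y n => rfl
  have hT1 : ∀ y n, (S y (n + 1)).T ⊆ (S y n).T := fun y n => by
    rw [hS]
    exact (hs' _ _ _).2.1
  have hTm : ∀ y {m n}, m ≤ n → (S y n).T ⊆ (S y m).T := fun y m n hmn =>
    antitone_nat_of_succ_le (f := fun n => (S y n).T) (hT1 y) hmn
  have hne : ∀ y n, (S y n).T.Nonempty := fun y n => by
    by_contra h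
    rw [not_nonempty_iff_eq_empty] at h
    exact (S y n).unc (h ▸ countable_empty)
  choose w hw using hne
  -- the limit label
  let e : (ℕ → Bool) → (ℕ → Bool) := fun y i => (w y (i + 1)).1 i
  have hagree : ∀ y n (r r' : R), r ∈ (S y (n + 1)).T → r' ∈ (S y (n + 1)).T →
      ∀ i < n + 1, r.1 i = r'.1 i := by
    intro y n r r' hr hr' i hi
    rw [hS] at hr hr'
    have h1 := (hs' _ _ _).2.2 r hr i (lt_of_lt_of_le hi (hk _ _))
    have h2 := (hs' _ _ _).2.2 r' hr' i (lt_of_lt_of_le hi (hk _ _))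
    rw [h1, h2]
  have he : ∀ y n, ∀ r ∈ (S y n).T, ∀ i < n, r.1 i = e y i := by
    intro y n r hr i hi
    exact hagree y i r _ (hTm y (Nat.succ_le_of_lt hi) hr) (hw y (i + 1)) i (Nat.lt_succ_self i)
  have hcong : ∀ y y' n, (∀ i < n, y i = y' i) → S y n = S y' n := by
    intro y y' n
    induction n with
    | zero => intro _; rfl
    | succ n ih =>
      intro hy
      rw [hS, hS, ih fun i hi => hy i (by omega), hy n (Nat.lt_succ_self n)]
  have hw' : ∀ y y' n, (∀ i < n, y i = y' i) → ∀ r ∈ (S y n).T, ∀ i < n, r.1 i = e y' i := by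
    intro y y' n hy r hr i hi
    exact he y' n r (by rw [← hcong y y' n hy]; exact hr) i hi
  have hecont : Continuous e := by
    refine continuous_pi fun i => ?_
    rw [continuous_discrete_rng]
    intro b
    rw [isOpen_pi_iff]
    intro y hy
    refine ⟨Finset.range (i + 1), fun j => {y j}, fun j _ => ⟨isOpen_discrete _, rfl⟩, ?_⟩
    intro y' hy'
    have h1 : ∀ j < i + 1, y' j = y j := fun j hj => hy' j (by simpa using hj)
    have h2 := hw' y y' (i + 1) (fun j hj => (h1 j hj).symm) (w y (i + 1)) (hw y (i + 1)) i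
      (Nat.lt_succ_self i)
    have h3 : e y' i = e y i := h2.symm
    show e y' i ∈ ({b} : Set Bool)
    rw [h3]
    exact hy
  have heinj : Function.Injective e := by
    intro y y' hyy
    by_contra hne
    have hex : ∃ n, y n ≠ y' n := Function.ne_iff.1 hne
    let n := Nat.find hex
    have hn : y n ≠ y' n := Nat.find_spec hex
    have hlt : ∀ i < n, y i = y' i := fun i hi => by
      by_contra h
      exact Nat.find_min hex hi h
    have hSn := hcong y y' n hlt
    obtain ⟨i, hi, hui⟩ := hu (S y n) (n + 1)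
    have h1 : e y i = u (S y n) (n + 1) (y n) i := by
      have h2 := hw y (max (n + 1) (i + 1))
      have h3 := he y _ _ h2 i (by omega)
      rw [← h3]
      have h4 := hTm y (le_max_left (n + 1) (i + 1)) h2
      rw [hS] at h4
      exact (hs' _ _ _).2.2 _ h4 i hi
    have h1' : e y' i = u (S y n) (n + 1) (y' n) i := by
      have h2 := hw y' (max (n + 1) (i + 1))
      have h3 := he y' _ _ h2 i (by omega)
      rw [← h3]
      have h4 := hTm y' (le_max_left (n + 1) (i + 1)) h2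
      rw [hS, ← hSn] at h4
      exact (hs' _ _ _).2.2 _ h4 i hi
    rw [hyy, h1'] at h1
    apply hui
    cases h5 : y n <;> cases h6 : y' n
    · exact absurd (h5.trans h6.symm) hn
    · rw [h5, h6] at h1
      exact h1.symm
    · rw [h5, h6] at h1
      exact h1
    · exact absurd (h5.trans h6.symm) hn
  obtain ⟨y, hy⟩ := hR e hecont heinj
  -- the path
  have hex : ∀ n, ∃ a, (S y (n + 1)).p = a :: (S y n).p := fun n => by
    rw [hS]
    exact (hs' _ _ _).1
  choose a ha using hex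
  obtain ⟨x0, hx0⟩ := exists_ini p0
  let x : ℕ → Bool × ℕ := fun j => if j < p0.length then x0 j else a (j - p0.length)
  have hx : ∀ n, ini x (p0.length + n) = (S y n).p := by
    intro n
    induction n with
    | zero =>
      show ini x p0.length = p0
      refine Eq.trans (ini_congr fun i hi => ?_) hx0
      simp [x, hi]
    | succ n ih =>
      rw [ha n, ← ih]
      show x (p0.length + n) :: _ = _
      congr 1
      simp [x]
  obtain ⟨j, hj⟩ := h x ⟨e y, hy⟩
  refine (S y j).unc ((hj (p0.length + j) (by omega)).mono ?_)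
  intro r hr
  refine ⟨fun i hi => he y j r hr i hi, ?_⟩
  rw [hx j]
  exact (S y j).bad r hr

end Pool.Agent.W642.HG
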