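import Mathlib
import Pool.Agent.W642.HG.Key

set_option autoImplicit false

/-! The function and the algebra. -/

namespace Pool.Agent.W642.HG

open Set Filter Topology Pt

variable {R : Set (ℕ → Bool)}

theorem left_bounds {u p : List (Bool × ℕ)} (h : u <:+ p) :
    left u ≤ left p ∧ left p + (1 / 2) ^ p.length ≤ left u + (1 / 2) ^ u.length := by
  induction p with
  | nil =>
    rw [List.suffix_nil] at h
    subst h
    exact ⟨le_rfl, le_rfl⟩
  | cons a p ih =>
    rcases List.suffix_cons_iff.1 h with h1 | h1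
    · subst h1
      exact ⟨le_rfl, le_rfl⟩
    · obtain ⟨h2, h3⟩ := ih h1
      have h4 : (0 : ℝ) < (1 / 2) ^ p.length := by positivity
      simp only [left, List.length_cons, pow_succ]
      split_ifs
      · constructor <;> linarith
      · constructor <;> linarith

theorem left_ini_bounds (x : ℕ → Bool × ℕ) (j : ℕ) :
    left (ini x j) ≤ (⨆ i, left (ini x i)) ∧ (⨆ i, left (ini x i)) ≤ left (ini x j) + (1 / 2) ^ j := by
  have hmono : Monotone fun i => left (ini x i) := fun i k h => (left_bounds (ini_suffix x h)).1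
  have hb : ∀ i, left (ini x i) ≤ left (ini x j) + (1 / 2) ^ j := by
    intro i
    have h1 := (left_bounds (ini_suffix x (le_max_right i j))).2
    have h2 := hmono (le_max_left i j)
    simp only [ini_length] at h1
    have h3 : (0 : ℝ) < (1 / 2) ^ (max i j) := by positivity
    simp only at h2
    linarith
  exact ⟨le_ciSup (f := fun i => left (ini x i)) ⟨_, by rintro _ ⟨i, rfl⟩; exact hb i⟩ j,
    ciSup_le hb⟩

theorem f_bounds {u : List (Bool × ℕ)} {z : Pt R} (h : inP u z) :
    left u ≤ f z ∧ f z ≤ left u + (1 / 2) ^ u.length := by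
  cases z with
  | node p r c =>
    obtain ⟨h1, h2⟩ := left_bounds (show u <:+ p from h)
    have h3 : (0 : ℝ) < (1 / 2) ^ p.length := by positivity
    have h4 : ((c : ℕ) : ℝ) ≤ 2 := by
      have := c.2
      exact_mod_cast (by omega : (c : ℕ) ≤ 2)
    have h5 : (0 : ℝ) ≤ ((c : ℕ) : ℝ) := by positivity
    show left u ≤ val p c ∧ val p c ≤ _
    simp only [val, pow_succ]
    constructor <;> nlinarith
  | br x r =>
    have h1 : u = ini x u.length := h
    have h2 := left_ini_bounds x u.length
    rw [← h1] at h2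
    exact h2

theorem continuous_f : Continuous (f : Pt R → ℝ) := by
  rw [continuous_iff_continuousAt]
  intro z
  cases z with
  | node p r c =>
    have h1 := (isClopen_E (R := R) (r.1, val p c)).isOpen.mem_nhds
      (show (node p r c : Pt R) ∈ _ from ⟨rfl, r.2, rfl⟩)
    refine tendsto_const_nhds.congr' ?_
    filter_upwards [h1] with z hz
    exact hz.2.2.symm
  | br x r =>
    rw [ContinuousAt, Metric.tendsto_nhds]
    intro ε hε
    obtain ⟨j, hj⟩ := exists_pow_lt_of_lt_one hε (by norm_num : (1 / 2 : ℝ) < 1)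
    have hz0 : inP (ini x j) (br x r : Pt R) := by
      show ini x j = ini x (ini x j).length
      rw [ini_length]
    have h1 := (isClopen_inP (R := R) (ini x j)).isOpen.mem_nhds
      (show (br x r : Pt R) ∈ _ from hz0)
    filter_upwards [h1] with z hz
    have h2 := f_bounds (R := R) hz0
    have h3 := f_bounds (R := R) hz
    simp only [ini_length] at h2 h3
    rw [Real.dist_eq, abs_lt]
    constructor <;> linarith [h2.1, h2.2, h3.1, h3.2]

/-- The function as a continuous map. -/
noncomputable def fC : C(Pt R, ℝ) := ⟨f, continuous_f⟩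

/-- The algebra. -/
def alg (R : Set (ℕ → Bool)) : Subalgebra ℝ C(Pt R, ℝ) where
  carrier := {g | ∀ p, {r : R | g (node p r 0) ≠ g (node p r 2)}.Countable}
  mul_mem' {a b} ha hb p := by
    refine ((ha p).union (hb p)).mono fun r hr => ?_
    by_contra hcon
    simp only [mem_union, mem_ofPred_eq, not_or, not_not] at hcon
    exact hr (by simp only [ContinuousMap.mul_apply, hcon.1, hcon.2])
  add_mem' {a b} ha hb p := by
    refine ((ha p).union (hb p)).mono fun r hr => ?_
    by_contra hcon
    simp only [mem_union, mem_ofPred_eq, not_or, not_not] at hcon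
    exact hr (by simp only [ContinuousMap.add_apply, hcon.1, hcon.2])
  algebraMap_mem' c p := by
    convert countable_empty (α := R) using 1
    ext r
    simp

theorem mem_alg {g : C(Pt R, ℝ)} :
    g ∈ alg R ↔ ∀ p, {r : R | g (node p r 0) ≠ g (node p r 2)}.Countable := Iff.rfl

theorem fC_notMem (hR : ¬ R.Countable) : (fC : C(Pt R, ℝ)) ∉ alg R := by
  intro h
  have h1 := h []
  have h2 : {r : R | (fC : C(Pt R, ℝ)) (node [] r 0) ≠ fC (node [] r 2)} = univ := by
    ext r
    simp only [mem_ofPred_eq, mem_univ, iff_true]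
    show val [] 0 ≠ val [] 2
    simp [val, left]
  rw [h2, countable_univ_iff] at h1
  exact hR (Set.countable_coe_iff.1 h1)

/-- Closure under maps of several variables: values of a member and a function of values. -/
theorem mem_of_forall {g : C(Pt R, ℝ)} (S : ℕ → C(Pt R, ℝ)) (hS : ∀ n, S n ∈ alg R)
    (h : ∀ z w, (∀ n, S n z = S n w) → g z = g w) : g ∈ alg R := by
  intro p
  refine (countable_iUnion fun n => hS n p).mono fun r hr => ?_
  by_contra hcon
  simp only [mem_iUnion, mem_ofPred_eq, not_exists, not_not] at hcon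
  exact hr (h _ _ hcon)

/-- Local membership. -/
theorem mem_of_local (hR : ∀ e : (ℕ → Bool) → (ℕ → Bool), Continuous e → Function.Injective e →
    ∃ y, e y ∉ R) {g : C(Pt R, ℝ)}
    (h : ∀ z : Pt R, ∃ U ∈ 𝓝 z, ∃ S : ℕ → C(Pt R, ℝ), (∀ n, S n ∈ alg R) ∧
      ∀ w ∈ U, ∀ w' ∈ U, (∀ n, S n w = S n w') → g w = g w') : g ∈ alg R := by
  apply key hR g
  intro x r
  obtain ⟨U, hU, S, hS, hg⟩ := h (br x r)
  obtain ⟨j, hj⟩ := nhds_br x r hU
  refine ⟨j, fun k hk => ?_⟩
  refine (countable_iUnion fun n => hS n (ini x k)).mono ?_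
  rintro r' ⟨h1, h2⟩
  by_contra hcon
  simp only [mem_iUnion, mem_ofPred_eq, not_exists, not_not] at hcon
  have h3 : ∀ c, (node (ini x k) r' c : Pt R) ∈ U := fun c =>
    hj _ (inP_of_suffix (ini_suffix x hk) (inP_node_self _ _ _)) h1
  exact h2 (hg _ (h3 0) _ (h3 2) hcon)

/-- Indicator functions of clopen sets. -/
noncomputable def ind (U : Set (Pt R)) (hU : IsClopen U) : C(Pt R, ℝ) :=
  (LocallyConstant.charFn ℝ hU).toContinuousMap

theorem ind_apply_mem {U : Set (Pt R)} (hU : IsClopen U) {z : Pt R} (h : z ∈ U) :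
    ind U hU z = 1 := by
  show (LocallyConstant.charFn ℝ hU) z = 1
  rw [LocallyConstant.coe_charFn]
  simp [h]

theorem ind_apply_notMem {U : Set (Pt R)} (hU : IsClopen U) {z : Pt R} (h : z ∉ U) :
    ind U hU z = 0 := by
  show (LocallyConstant.charFn ℝ hU) z = 0
  rw [LocallyConstant.coe_charFn]
  simp [h]

theorem ind_mem (hR : ∀ e : (ℕ → Bool) → (ℕ → Bool), Continuous e → Function.Injective e →
    ∃ y, e y ∉ R) {U : Set (Pt R)} (hU : IsClopen U) : ind U hU ∈ alg R := by
  apply mem_of_local hR
  intro z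
  by_cases hz : z ∈ U
  · refine ⟨U, hU.isOpen.mem_nhds hz, fun _ => 0, fun _ => zero_mem _, fun w hw w' hw' _ => ?_⟩
    rw [ind_apply_mem hU hw, ind_apply_mem hU hw']
  · refine ⟨Uᶜ, hU.compl.isOpen.mem_nhds hz, fun _ => 0, fun _ => zero_mem _,
      fun w hw w' hw' _ => ?_⟩
    rw [ind_apply_notMem hU hw, ind_apply_notMem hU hw']

end Pool.Agent.W642.HG
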