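import Mathlib
import Pool.Agent.W642.HG.Fun

set_option autoImplicit false

/-! Ring homomorphisms of the algebra to the real numbers. -/

namespace Pool.Agent.W642.HG

open Set Filter Topology Pt

variable {R : Set (ℕ → Bool)}

theorem sqrt_mem {g : C(Pt R, ℝ)} (hg : g ∈ alg R) :
    (⟨fun z => Real.sqrt (g z), by fun_prop⟩ : C(Pt R, ℝ)) ∈ alg R := by
  refine mem_of_forall (fun _ => g) (fun _ => hg) fun z w h => ?_
  simp only [ContinuousMap.coe_mk, h 0]

theorem inv_mem {g : C(Pt R, ℝ)} (hg : g ∈ alg R) (h0 : ∀ z, g z ≠ 0) :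
    (⟨fun z => (g z)⁻¹, g.continuous.inv₀ h0⟩ : C(Pt R, ℝ)) ∈ alg R := by
  refine mem_of_forall (fun _ => g) (fun _ => hg) fun z w h => ?_
  simp only [ContinuousMap.coe_mk, h 0]

theorem hom_algebraMap (φ : alg R →+* ℝ) (c : ℝ) : φ (algebraMap ℝ (alg R) c) = c := by
  have h := Subsingleton.elim (φ.comp (algebraMap ℝ (alg R))) (RingHom.id ℝ)
  exact RingHom.congr_fun h c

theorem hom_nonneg (φ : alg R →+* ℝ) (g : alg R) (hg : ∀ z, 0 ≤ g.1 z) : 0 ≤ φ g := by
  have h : g = ⟨_, sqrt_mem g.2⟩ * ⟨_, sqrt_mem g.2⟩ := by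
    apply Subtype.ext
    ext z
    exact (Real.mul_self_sqrt (hg z)).symm
  rw [h, map_mul]
  exact mul_self_nonneg _

theorem hom_mono (φ : alg R →+* ℝ) (g h : alg R) (hg : ∀ z, g.1 z ≤ h.1 z) : φ g ≤ φ h := by
  have h1 := hom_nonneg φ (h - g) fun z => by
    show 0 ≤ h.1 z - g.1 z
    linarith [hg z]
  rw [map_sub] at h1
  linarith

theorem hom_zero_of_nonneg (φ : alg R →+* ℝ) (h : ℕ → alg R) (hn : ∀ n z, 0 ≤ (h n).1 z)
    (h0 : ∀ n, φ (h n) = 0) : ∃ z, ∀ n, (h n).1 z = 0 := by
  have hb : ∀ n z, ‖(1 / 2 : ℝ) ^ n * min ((h n).1 z) 1‖ ≤ (1 / 2) ^ n := by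
    intro n z
    rw [norm_mul, Real.norm_of_nonneg (by positivity), Real.norm_of_nonneg (le_min (hn n z) zero_le_one)]
    exact mul_le_of_le_one_right (by positivity) (min_le_right _ _)
  have hs : ∀ z, Summable fun n => (1 / 2 : ℝ) ^ n * min ((h n).1 z) 1 := fun z =>
    Summable.of_norm_bounded summable_geometric_two fun n => hb n z
  let H : C(Pt R, ℝ) := ⟨fun z => ∑' n, (1 / 2 : ℝ) ^ n * min ((h n).1 z) 1,
    continuous_tsum (fun n => by fun_prop) summable_geometric_two hb⟩
  have hH : H ∈ alg R := by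
    refine mem_of_forall (fun n => (h n).1) (fun n => (h n).2) fun z w hzw => ?_
    show ∑' n, _ = ∑' n, _
    simp only [hzw]
  have hterm : ∀ n z, 0 ≤ (1 / 2 : ℝ) ^ n * min ((h n).1 z) 1 := fun n z =>
    mul_nonneg (by positivity) (le_min (hn n z) zero_le_one)
  have hφ : φ ⟨H, hH⟩ = 0 := by
    apply le_antisymm
    · refine le_of_forall_pos_le_add fun ε hε => ?_
      obtain ⟨N, hN⟩ := exists_pow_lt_of_lt_one (half_pos hε) (by norm_num : (1 / 2 : ℝ) < 1)
      have h1 := hom_mono φ ⟨H, hH⟩ (∑ n ∈ Finset.range N, h n + algebraMap ℝ (alg R) ε) fun z => by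
        have h2 : H z = ∑ n ∈ Finset.range N, (1 / 2 : ℝ) ^ n * min ((h n).1 z) 1 +
            ∑' n, (1 / 2 : ℝ) ^ (n + N) * min ((h (n + N)).1 z) 1 :=
          ((hs z).sum_add_tsum_nat_add N).symm
        have h3 : ∑' n, (1 / 2 : ℝ) ^ (n + N) * min ((h (n + N)).1 z) 1 ≤ ε := by
          have h4 : Summable fun n => (1 / 2 : ℝ) ^ n * (1 / 2) ^ N :=
            summable_geometric_two.mul_right _
          refine (Summable.tsum_le_tsum (fun n => ?_) ((summable_nat_add_iff N).2 (hs z)) h4).trans ?_
          · rw [← pow_add]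
            exact mul_le_of_le_one_right (by positivity) (min_le_right _ _)
          · rw [tsum_mul_right, tsum_geometric_two]
            linarith
        have h5 : ∑ n ∈ Finset.range N, (1 / 2 : ℝ) ^ n * min ((h n).1 z) 1 ≤
            ∑ n ∈ Finset.range N, (h n).1 z := by
          refine Finset.sum_le_sum fun n _ => ?_
          have h6 : (1 / 2 : ℝ) ^ n ≤ 1 := pow_le_one₀ (by norm_num) (by norm_num)
          calc (1 / 2 : ℝ) ^ n * min ((h n).1 z) 1 ≤ 1 * min ((h n).1 z) 1 :=
                mul_le_mul_of_nonneg_right h6 (le_min (hn n z) zero_le_one)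
            _ ≤ (h n).1 z := by rw [one_mul]; exact min_le_left _ _
        have h7 : ((∑ n ∈ Finset.range N, h n + algebraMap ℝ (alg R) ε : alg R) : C(Pt R, ℝ)) z =
            ∑ n ∈ Finset.range N, (h n).1 z + ε := by
          have e : ((∑ n ∈ Finset.range N, h n : alg R) : C(Pt R, ℝ)) =
            ∑ n ∈ Finset.range N, (h n).1 := map_sum (alg R).val _ _
          rw [Subalgebra.coe_add, e, ContinuousMap.add_apply, ContinuousMap.sum_apply]
          rfl
        show H z ≤ _
        rw [h7, h2]
        linarith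
      rw [map_add, map_sum, hom_algebraMap, Finset.sum_eq_zero fun n _ => h0 n] at h1
      exact h1
    · exact hom_nonneg φ _ fun z => tsum_nonneg fun n => hterm n z
  by_contra hcon
  push Not at hcon
  have hpos : ∀ z, H z ≠ 0 := by
    intro z
    obtain ⟨n, hnz⟩ := hcon z
    have h1 : (1 / 2 : ℝ) ^ n * min ((h n).1 z) 1 ≤ H z := (hs z).le_tsum n fun m _ => hterm m z
    have h2 : 0 < (1 / 2 : ℝ) ^ n * min ((h n).1 z) 1 :=
      mul_pos (by positivity) (lt_min (lt_of_le_of_ne (hn n z) hnz.symm) one_pos)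
    exact (lt_of_lt_of_le h2 h1).ne'
  have h1 : (⟨H, hH⟩ : alg R) * ⟨_, inv_mem hH hpos⟩ = 1 := by
    apply Subtype.ext
    ext z
    exact mul_inv_cancel₀ (hpos z)
  have h2 := congrArg φ h1
  rw [map_mul, hφ, zero_mul, map_one] at h2
  exact zero_ne_one h2

/-- A countable family in the kernel of a homomorphism has a common zero. -/
theorem hom_zero {ι : Type} [Countable ι] [Nonempty ι] (φ : alg R →+* ℝ) (h : ι → alg R)
    (h0 : ∀ n, φ (h n) = 0) : ∃ z, ∀ n, (h n).1 z = 0 := by
  obtain ⟨s, hs⟩ := exists_surjective_nat ι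
  obtain ⟨z, hz⟩ := hom_zero_of_nonneg φ (fun n => h (s n) * h (s n))
    (fun n z => mul_self_nonneg _) (fun n => by rw [map_mul, h0, zero_mul])
  refine ⟨z, fun i => ?_⟩
  obtain ⟨n, rfl⟩ := hs i
  exact mul_self_eq_zero.1 (hz n)

theorem hom_ind (hR : ∀ e : (ℕ → Bool) → (ℕ → Bool), Continuous e → Function.Injective e →
    ∃ y, e y ∉ R) (φ : alg R →+* ℝ) {U : Set (Pt R)} (hU : IsClopen U) :
    φ ⟨ind U hU, ind_mem hR hU⟩ = 0 ∨ φ ⟨ind U hU, ind_mem hR hU⟩ = 1 := by
  have h : (⟨ind U hU, ind_mem hR hU⟩ : alg R) * ⟨ind U hU, ind_mem hR hU⟩ =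
      ⟨ind U hU, ind_mem hR hU⟩ := by
    apply Subtype.ext
    ext z
    show ind U hU z * ind U hU z = ind U hU z
    by_cases hz : z ∈ U
    · rw [ind_apply_mem hU hz, one_mul]
    · rw [ind_apply_notMem hU hz, zero_mul]
  have h2 := congrArg φ h
  rw [map_mul] at h2
  rcases eq_or_ne (φ ⟨ind U hU, ind_mem hR hU⟩) 0 with h3 | h3
  · exact Or.inl h3
  · exact Or.inr (mul_right_cancel₀ h3 (h2.trans (one_mul _).symm))

/-- Every ring homomorphism to the real numbers is the evaluation at a point. -/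
theorem hom_eval (hR : ∀ e : (ℕ → Bool) → (ℕ → Bool), Continuous e → Function.Injective e →
    ∃ y, e y ∉ R) (φ : alg R →+* ℝ) : ∃ z, ∀ g : alg R, φ g = g.1 z := by
  classical
  -- the label
  have hL : ∀ i, IsClopen {z : Pt R | lab z i = true} := fun i =>
    (isClopen_discrete {true}).preimage ((continuous_apply i).comp continuous_lab)
  let r0 : ℕ → Bool := fun i => decide (φ ⟨ind _ (hL i), ind_mem hR (hL i)⟩ = 1)
  let hl : ℕ → alg R := fun i => ⟨ind _ (hL i), ind_mem hR (hL i)⟩ -
    algebraMap ℝ (alg R) (if r0 i = true then 1 else 0)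
  have hl0 : ∀ i, φ (hl i) = 0 := by
    intro i
    simp only [hl, map_sub, hom_algebraMap]
    rcases hom_ind hR φ (hL i) with h | h
    · have h2 : r0 i = false := by simp [r0, h]
      rw [h, h2]
      simp
    · have h2 : r0 i = true := by simp [r0, h]
      rw [h, h2]
      simp
  have hl1 : ∀ i z, (hl i).1 z = 0 → lab z i = r0 i := by
    intro i z h
    have h1 : ind _ (hL i) z - (if r0 i = true then (1 : ℝ) else 0) = 0 := h
    by_cases hz : lab z i = true
    · rw [ind_apply_mem (hL i) hz] at h1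
      rw [hz]
      by_contra h2
      have h3 : r0 i = false := by
        cases h4 : r0 i
        · rfl
        · exact absurd h4.symm h2
      rw [h3] at h1
      simp at h1
    · rw [ind_apply_notMem (hL i) hz] at h1
      have hz' : lab z i = false := by simpa using hz
      rw [hz']
      by_contra h2
      have h3 : r0 i = true := by
        cases h4 : r0 i
        · exact absurd h4.symm h2
        · rfl
      rw [h3] at h1
      simp at h1
  by_cases hr0 : r0 ∈ R
  · by_contra hcon
    push Not at hcon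
    choose g hg using hcon
    let h : ℕ ⊕ (List (Bool × ℕ) × Fin 3) → alg R := Sum.elim hl fun q =>
      g (node q.1 ⟨r0, hr0⟩ q.2) - algebraMap ℝ (alg R) (φ (g (node q.1 ⟨r0, hr0⟩ q.2)))
    have hh0 : ∀ i, φ (h i) = 0 := by
      rintro (i | q)
      · exact hl0 i
      · show φ (g _ - algebraMap ℝ (alg R) (φ (g _))) = 0
        rw [map_sub, hom_algebraMap, sub_self]
    obtain ⟨z, hz⟩ := hom_zero φ h hh0
    have hlab : lab z = r0 := funext fun i => hl1 i z (hz (Sum.inl i))
    cases z with
    | node p r c =>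
      have hr : r = ⟨r0, hr0⟩ := Subtype.ext hlab
      subst hr
      have h1 : (g (node p ⟨r0, hr0⟩ c)).1 (node p ⟨r0, hr0⟩ c) -
        φ (g (node p ⟨r0, hr0⟩ c)) = 0 := hz (Sum.inr (p, c))
      exact hg _ (sub_eq_zero.1 h1).symm
    | br x r =>
      have : r.1 = r0 := hlab
      exact r.2 (this ▸ hr0)
  · -- the path
    have hB : ∀ p, φ ⟨ind _ (isClopen_inP p), ind_mem hR (isClopen_inP p)⟩ = 1 → ∃ a,
        φ ⟨ind _ (isClopen_inP (a :: p)), ind_mem hR (isClopen_inP (a :: p))⟩ = 1 := by
      intro p hp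
      by_contra hcon
      push Not at hcon
      let h : ℕ ⊕ ((Bool × ℕ) ⊕ Unit) → alg R := Sum.elim hl (Sum.elim
        (fun a => ⟨ind _ (isClopen_inP (a :: p)), ind_mem hR (isClopen_inP (a :: p))⟩)
        fun _ => 1 - ⟨ind _ (isClopen_inP p), ind_mem hR (isClopen_inP p)⟩)
      have hh0 : ∀ i, φ (h i) = 0 := by
        rintro (i | a | _)
        · exact hl0 i
        · exact (hom_ind hR φ (isClopen_inP (a :: p))).resolve_right (hcon a)
        · show φ (1 - _) = 0
          rw [map_sub, map_one, hp, sub_self]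
      obtain ⟨z, hz⟩ := hom_zero φ h hh0
      have hlab : lab z = r0 := funext fun i => hl1 i z (hz (Sum.inl i))
      have hzp : inP p z := by
        by_contra hn
        have h1 : (1 : ℝ) - ind _ (isClopen_inP p) z = 0 := hz (Sum.inr (Sum.inr ()))
        rw [ind_apply_notMem (isClopen_inP p) hn] at h1
        simp at h1
      have hza : ∀ a, ¬ inP (a :: p) z := by
        intro a ha
        have h1 : ind _ (isClopen_inP (a :: p)) z = 0 := hz (Sum.inr (Sum.inl a))
        rw [ind_apply_mem (isClopen_inP (a :: p)) ha] at h1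
        exact one_ne_zero h1
      cases z with
      | node q r c => exact hr0 ((show r.1 = r0 from hlab) ▸ r.2)
      | br x r =>
        apply hza (x p.length)
        have h1 : p = ini x p.length := hzp
        show x p.length :: p = ini x (p.length + 1)
        rw [ini]
        congr 1
    have hroot : φ ⟨ind _ (isClopen_inP []), ind_mem hR (isClopen_inP [])⟩ = 1 := by
      have h1 : (⟨ind _ (isClopen_inP []), ind_mem hR (isClopen_inP [])⟩ : alg R) = 1 := by
        apply Subtype.ext
        ext z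
        refine (ind_apply_mem (isClopen_inP []) ?_)
        cases z with
        | node p r c => exact List.nil_suffix
        | br x r => rfl
      rw [h1, map_one]
    choose! a ha using hB
    let P : ℕ → List (Bool × ℕ) := fun n => Nat.rec [] (fun _ p => a p :: p) n
    have hP : ∀ n, P (n + 1) = a (P n) :: P n := fun n => rfl
    have hPb : ∀ n, φ ⟨ind _ (isClopen_inP (P n)), ind_mem hR (isClopen_inP (P n))⟩ = 1 := by
      intro n
      induction n with
      | zero => exact hroot
      | succ n ih => exact ha _ ih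
    let x : ℕ → Bool × ℕ := fun n => a (P n)
    have hx : ∀ n, ini x n = P n := by
      intro n
      induction n with
      | zero => rfl
      | succ n ih => rw [ini, ih, hP]
    refine ⟨br x ⟨r0, hr0⟩, fun g => ?_⟩
    let h : ℕ ⊕ (ℕ ⊕ Unit) → alg R := Sum.elim hl (Sum.elim
      (fun n => 1 - ⟨ind _ (isClopen_inP (P n)), ind_mem hR (isClopen_inP (P n))⟩)
      fun _ => g - algebraMap ℝ (alg R) (φ g))
    have hh0 : ∀ i, φ (h i) = 0 := by
      rintro (i | n | _)
      · exact hl0 i
      · show φ (1 - _) = 0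
        rw [map_sub, map_one, hPb, sub_self]
      · show φ (g - _) = 0
        rw [map_sub, hom_algebraMap, sub_self]
    obtain ⟨z, hz⟩ := hom_zero φ h hh0
    have hlab : lab z = r0 := funext fun i => hl1 i z (hz (Sum.inl i))
    have hzp : ∀ n, inP (P n) z := by
      intro n
      by_contra hn
      have h1 : (1 : ℝ) - ind _ (isClopen_inP (P n)) z = 0 := hz (Sum.inr (Sum.inl n))
      rw [ind_apply_notMem (isClopen_inP (P n)) hn] at h1
      simp at h1
    have hgz : g.1 z - φ g = 0 := hz (Sum.inr (Sum.inr ()))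
    have hz2 : z = br x ⟨r0, hr0⟩ := by
      cases z with
      | node q r c => exact absurd ((show r.1 = r0 from hlab) ▸ r.2) hr0
      | br x' r =>
        have h1 : r = ⟨r0, hr0⟩ := Subtype.ext hlab
        have h2 : x' = x := by
          funext n
          have h3 : P (n + 1) = ini x' (P (n + 1)).length := hzp (n + 1)
          have h4 : (P (n + 1)).length = n + 1 := by
            rw [← hx (n + 1)]
            exact ini_length _ _
          rw [h4] at h3
          have h5 : x n :: P n = x' n :: ini x' n := h3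
          exact (List.cons.inj h5).1.symm
        rw [h1, h2]
    rw [← hz2]
    exact (sub_eq_zero.1 hgz).symm

end Pool.Agent.W642.HG
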