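import Mathlib
import Pool.Agent.W642.HG.Hom

set_option autoImplicit false
set_option synthInstance.maxHeartbeats 400000

/-! The algebra is closed under strong inversion and is not an algebra of all continuous
functions. -/

namespace Pool.Agent.W642.HG

open Set Filter Topology Pt

variable {R : Set (ℕ → Bool)}

theorem sup_mem' {a b : C(Pt R, ℝ)} (ha : a ∈ alg R) (hb : b ∈ alg R) : a ⊔ b ∈ alg R := by
  refine mem_of_forall (fun n => if n = 0 then a else b)
    (fun n => by split_ifs; exacts [ha, hb]) fun z w h => ?_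
  have h0 := h 0
  have h1 := h 1
  simp only [if_true, one_ne_zero, if_false] at h0 h1
  simp only [ContinuousMap.sup_apply, h0, h1]

theorem inf_mem' {a b : C(Pt R, ℝ)} (ha : a ∈ alg R) (hb : b ∈ alg R) : a ⊓ b ∈ alg R := by
  refine mem_of_forall (fun n => if n = 0 then a else b)
    (fun n => by split_ifs; exacts [ha, hb]) fun z w h => ?_
  have h0 := h 0
  have h1 := h 1
  simp only [if_true, one_ne_zero, if_false] at h0 h1
  simp only [ContinuousMap.inf_apply, h0, h1]

noncomputable instance : Max (alg R) := ⟨fun a b => ⟨a.1 ⊔ b.1, sup_mem' a.2 b.2⟩⟩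

noncomputable instance : Min (alg R) := ⟨fun a b => ⟨a.1 ⊓ b.1, inf_mem' a.2 b.2⟩⟩

noncomputable instance lat : Lattice (alg R) :=
  Function.Injective.lattice (fun a : alg R => a.1) Subtype.val_injective Iff.rfl Iff.rfl
    (fun _ _ => rfl) (fun _ _ => rfl)

theorem le_iff {a b : alg R} : a ≤ b ↔ ∀ z, a.1 z ≤ b.1 z := Iff.rfl

/-- the evaluation -/
noncomputable def ev (z : Pt R) : alg R →+* ℝ where
  toFun a := a.1 z
  map_one' := rfl
  map_mul' _ _ := rfl
  map_zero' := rfl
  map_add' _ _ := rfl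

theorem ev_surj (z : Pt R) : Function.Surjective (ev z) := fun c => ⟨algebraMap ℝ (alg R) c, rfl⟩

theorem real_ev (z : Pt R) : Nonempty (alg R ⧸ RingHom.ker (ev z) ≃+* ℝ) :=
  ⟨RingHom.quotientKerEquivOfSurjective (ev_surj z)⟩

theorem max_ev (z : Pt R) : (RingHom.ker (ev z)).IsMaximal :=
  RingHom.ker_isMaximal_of_surjective _ (ev_surj z)

section

variable (hR : ∀ e : (ℕ → Bool) → (ℕ → Bool), Continuous e → Function.Injective e → ∃ y, e y ∉ R)
include hR

theorem real_is_ev (M : Ideal (alg R)) (φ : alg R ⧸ M ≃+* ℝ) :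
    ∃ z, M = RingHom.ker (ev z) ∧ ∀ a : alg R, φ (Ideal.Quotient.mk M a) = a.1 z := by
  obtain ⟨z, hz⟩ := hom_eval hR ((φ : alg R ⧸ M →+* ℝ).comp (Ideal.Quotient.mk M))
  have hz' : ∀ a : alg R, φ (Ideal.Quotient.mk M a) = a.1 z := hz
  refine ⟨z, ?_, hz'⟩
  ext a
  rw [RingHom.mem_ker]
  show a ∈ M ↔ a.1 z = 0
  rw [← hz' a, map_eq_zero_iff φ φ.injective, Ideal.Quotient.eq_zero_iff_mem]

theorem si_uniform (s : ℕ → alg R) (f : Ideal (alg R) → ℝ)
    (h : ∀ ε : ℝ, 0 < ε → ∃ N : ℕ, ∀ n : ℕ, N ≤ n → ∀ M : Ideal (alg R), M.IsMaximal →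
          ∀ φ : alg R ⧸ M ≃+* ℝ, |φ (Ideal.Quotient.mk M (s n)) - f M| ≤ ε) :
    ∃ a : alg R, ∀ M : Ideal (alg R), M.IsMaximal →
          ∀ φ : alg R ⧸ M ≃+* ℝ, φ (Ideal.Quotient.mk M a) = f M := by
  let a : Pt R → ℝ := fun z => f (RingHom.ker (ev z))
  have hz : ∀ ε : ℝ, 0 < ε → ∃ N : ℕ, ∀ n : ℕ, N ≤ n → ∀ z, |(s n).1 z - a z| ≤ ε := by
    intro ε hε
    obtain ⟨N, hN⟩ := h ε hε
    refine ⟨N, fun n hn z => ?_⟩
    exact hN n hn _ (max_ev z) (RingHom.quotientKerEquivOfSurjective (ev_surj z))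
  have hu : TendstoUniformly (fun n z => (s n).1 z) a atTop := by
    rw [Metric.tendstoUniformly_iff]
    intro ε hε
    obtain ⟨N, hN⟩ := hz (ε / 2) (half_pos hε)
    filter_upwards [eventually_ge_atTop N] with n hn z
    rw [dist_comm, Real.dist_eq]
    exact lt_of_le_of_lt (hN n hn z) (half_lt_self hε)
  have ha : Continuous a := hu.continuous (Frequently.of_forall fun n => (s n).1.continuous)
  have hmem : (⟨a, ha⟩ : C(Pt R, ℝ)) ∈ alg R := by
    refine mem_of_forall (fun n => (s n).1) (fun n => (s n).2) fun z w hzw => ?_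
    have h1 := hu.tendsto_at z
    have h2 := hu.tendsto_at w
    simp only [hzw] at h1
    exact tendsto_nhds_unique h1 h2
  refine ⟨⟨_, hmem⟩, fun M hM φ => ?_⟩
  obtain ⟨z, hz1, hz2⟩ := real_is_ev hR M φ
  rw [hz2, hz1]
  rfl

theorem si_strong (D : Ideal (alg R))
    (hD : ∀ M : Ideal (alg R), M.IsMaximal → Nonempty (alg R ⧸ M ≃+* ℝ) → ¬ D ≤ M)
    (φ : D →ₗ[alg R] alg R) : ∃ c : alg R, ∀ d : D, φ d = c * (d : alg R) := by
  have h1 : ∀ z, ∃ d : D, d.1.1 z ≠ 0 := by
    intro z
    have h2 := hD _ (max_ev z) (real_ev z)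
    rw [SetLike.not_le_iff_exists] at h2
    obtain ⟨d, hd, hd2⟩ := h2
    exact ⟨⟨d, hd⟩, fun h => hd2 (RingHom.mem_ker.2 h)⟩
  choose d hd using h1
  let c : Pt R → ℝ := fun z => (φ (d z)).1 z / (d z).1.1 z
  have hcomm : ∀ d e : D, (d : alg R) * φ e = (e : alg R) * φ d := by
    intro d e
    have h2 : (d : alg R) • e = (e : alg R) • d := Subtype.ext (mul_comm _ _)
    have h3 := congrArg φ h2
    rwa [map_smul, map_smul, smul_eq_mul, smul_eq_mul] at h3
  have hcomm' : ∀ (d e : D) (z : Pt R), d.1.1 z * (φ e).1 z = e.1.1 z * (φ d).1 z := by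
    intro d e z
    have h2 := congrArg (fun a : alg R => a.1 z) (hcomm d e)
    exact h2
  have hc : ∀ (e : D) (z : Pt R), (φ e).1 z = c z * e.1.1 z := by
    intro e z
    have h2 := hcomm' (d z) e z
    show _ = (φ (d z)).1 z / (d z).1.1 z * e.1.1 z
    rw [div_mul_eq_mul_div, eq_div_iff (hd z), mul_comm, h2, mul_comm]
  have hU : ∀ z, {w : Pt R | (d z).1.1 w ≠ 0} ∈ 𝓝 z := fun z =>
    (isOpen_ne_fun (d z).1.1.continuous continuous_const).mem_nhds (hd z)
  have hcU : ∀ z w, (d z).1.1 w ≠ 0 → c w = (φ (d z)).1 w / (d z).1.1 w := by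
    intro z w hw
    rw [eq_div_iff hw, hc]
  have hcont : Continuous c := by
    rw [continuous_iff_continuousAt]
    intro z
    have h2 : ContinuousAt (fun w => (φ (d z)).1 w / (d z).1.1 w) z :=
      ((φ (d z)).1.continuous.continuousAt).div (d z).1.1.continuous.continuousAt (hd z)
    refine h2.congr ?_
    filter_upwards [hU z] with w hw
    exact (hcU z w hw).symm
  have hmem : (⟨c, hcont⟩ : C(Pt R, ℝ)) ∈ alg R := by
    apply mem_of_local hR
    intro z
    refine ⟨_, hU z, fun n => if n = 0 then (d z).1.1 else (φ (d z)).1,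
      fun n => by dsimp only; split_ifs; exacts [(d z).1.2, (φ (d z)).2],
      fun w hw w' hw' h => ?_⟩
    have h0 := h 0
    have h1 := h 1
    simp only [if_true, one_ne_zero, if_false] at h0 h1
    show c w = c w'
    rw [hcU z w hw, hcU z w' hw', h0, h1]
  refine ⟨⟨_, hmem⟩, fun e => ?_⟩
  apply Subtype.ext
  ext z
  exact hc e z

theorem same_value {z w : Pt R} (h : ∀ a : alg R, a.1 z = a.1 w) : f z = f w := by
  have hind : ∀ {U : Set (Pt R)} (_ : IsClopen U), z ∈ U → w ∈ U := by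
    intro U hU hz
    by_contra hw
    have h1 : ind U hU z = ind U hU w := h ⟨ind U hU, ind_mem hR hU⟩
    rw [ind_apply_mem hU hz, ind_apply_notMem hU hw] at h1
    exact one_ne_zero h1
  have hlab : lab z = lab w := by
    funext i
    have h1 := hind (isClopen_cyl (lab z) (i + 1)) (fun j _ => rfl)
    exact (h1 i (Nat.lt_succ_self i)).symm
  cases z with
  | node p r c =>
    have h1 := hind (isClopen_E (r.1, val p c)) ⟨rfl, r.2, rfl⟩
    exact h1.2.2.symm
  | br x r =>
    have h1 : ∀ n, |f (br x r : Pt R) - f w| ≤ (1 / 2) ^ n := by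
      intro n
      have h2 : inP (ini x n) (br x r : Pt R) := by
        show ini x n = ini x (ini x n).length
        rw [ini_length]
      have h3 := f_bounds h2
      have h4 := f_bounds (hind (isClopen_inP (ini x n)) h2)
      simp only [ini_length] at h3 h4
      rw [abs_le]
      constructor <;> linarith [h3.1, h3.2, h4.1, h4.2]
    have h2 : |f (br x r : Pt R) - f w| ≤ 0 := by
      refine ge_of_tendsto' (tendsto_pow_atTop_nhds_zero_of_lt_one (by norm_num)
        (by norm_num : (1 / 2 : ℝ) < 1)) h1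
    exact sub_eq_zero.1 (abs_nonpos_iff.1 h2)

end

/-- Ring homomorphisms on a closed subspace of a power of the real line. -/
theorem hom_eval_closed {X I : Type} [TopologicalSpace X] (e : X → I → ℝ)
    (he : IsClosedEmbedding e) (θ : C(X, ℝ) →+* ℝ) : ∃ y, ∀ h, θ h = h y := by
  classical
  have hcst : ∀ c : ℝ, θ (algebraMap ℝ C(X, ℝ) c) = c := fun c =>
    RingHom.congr_fun (Subsingleton.elim (θ.comp (algebraMap ℝ C(X, ℝ))) (RingHom.id ℝ)) c
  have hzero : ∀ h : C(X, ℝ), θ h = 0 → ∃ y, h y = 0 := by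
    intro h hh
    by_contra hcon
    push Not at hcon
    have h1 : h * ⟨fun y => (h y)⁻¹, h.continuous.inv₀ hcon⟩ = 1 := by
      ext y
      exact mul_inv_cancel₀ (hcon y)
    have h2 := congrArg θ h1
    rw [map_mul, hh, zero_mul, map_one] at h2
    exact zero_ne_one h2
  let co : I → C(X, ℝ) := fun i => ⟨fun y => e y i, (continuous_apply i).comp he.continuous⟩
  let p : I → ℝ := fun i => θ (co i)
  -- common zeros
  have hcz : ∀ (F : Finset I) (g : C(X, ℝ)), ∃ y, (∀ i ∈ F, e y i = p i) ∧ g y = θ g := by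
    intro F g
    let H : C(X, ℝ) := ∑ i ∈ F, (co i - algebraMap ℝ C(X, ℝ) (p i)) *
      (co i - algebraMap ℝ C(X, ℝ) (p i)) + (g - algebraMap ℝ C(X, ℝ) (θ g)) *
      (g - algebraMap ℝ C(X, ℝ) (θ g))
    have hH : θ H = 0 := by
      simp only [H, map_add, map_sum, map_mul, map_sub, hcst]
      simp [p]
    obtain ⟨y, hy⟩ := hzero H hH
    have h1 : H y = ∑ i ∈ F, (e y i - p i) * (e y i - p i) + (g y - θ g) * (g y - θ g) := by
      simp only [H, ContinuousMap.add_apply, ContinuousMap.sum_apply, ContinuousMap.mul_apply,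
        ContinuousMap.sub_apply]
      rfl
    rw [h1] at hy
    have h2 : 0 ≤ ∑ i ∈ F, (e y i - p i) * (e y i - p i) :=
      Finset.sum_nonneg fun i _ => mul_self_nonneg _
    have h3 : 0 ≤ (g y - θ g) * (g y - θ g) := mul_self_nonneg _
    have h4 : ∑ i ∈ F, (e y i - p i) * (e y i - p i) = 0 := by linarith
    have h5 : (g y - θ g) * (g y - θ g) = 0 := by linarith
    rw [Finset.sum_eq_zero_iff_of_nonneg fun i _ => mul_self_nonneg _] at h4
    exact ⟨y, fun i hi => sub_eq_zero.1 (mul_self_eq_zero.1 (h4 i hi)),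
      sub_eq_zero.1 (mul_self_eq_zero.1 h5)⟩
  have key : ∀ g : C(X, ℝ), ∃ y, e y = p ∧ g y = θ g := by
    intro g
    choose y hy1 hy2 using fun F => hcz F g
    have h1 : Tendsto (fun F => e (y F)) atTop (𝓝 p) := by
      rw [tendsto_pi_nhds]
      intro i
      refine tendsto_const_nhds.congr' ?_
      filter_upwards [eventually_ge_atTop {i}] with F hF
      exact (hy1 F i (hF (Finset.mem_singleton_self i))).symm
    obtain ⟨y0, hy0⟩ := he.isClosed_range.mem_of_tendsto h1
      (Eventually.of_forall fun F => mem_range_self _)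
    refine ⟨y0, hy0, ?_⟩
    rw [← hy0] at h1
    have h2 : Tendsto y atTop (𝓝 y0) := he.isEmbedding.tendsto_nhds_iff.2 h1
    have h3 : Tendsto (fun F => g (y F)) atTop (𝓝 (g y0)) := (g.continuous.tendsto _).comp h2
    have h4 : Tendsto (fun F => g (y F)) atTop (𝓝 (θ g)) :=
      tendsto_const_nhds.congr fun F => (hy2 F).symm
    exact tendsto_nhds_unique h3 h4
  obtain ⟨y0, hy0, -⟩ := key 0
  refine ⟨y0, fun g => ?_⟩
  obtain ⟨y, hy, hg⟩ := key g
  rw [← hg, he.injective (hy.trans hy0.symm)]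

theorem not_iso (hR : ∀ e : (ℕ → Bool) → (ℕ → Bool), Continuous e → Function.Injective e →
    ∃ y, e y ∉ R) (hR2 : ¬ R.Countable) {X I : Type} [TopologicalSpace X] (e : X → I → ℝ)
    (he : IsClosedEmbedding e) (ψ : alg R ≃+* C(X, ℝ)) : False := by
  classical
  have hσ : ∀ y : X, ∃ z, ∀ a : alg R, ψ a y = a.1 z := fun y =>
    hom_eval hR ((Pi.evalRingHom (fun _ : X => ℝ) y).comp
      ((ContinuousMap.coeFnRingHom (α := X) (β := ℝ)).comp (ψ : alg R →+* C(X, ℝ))))
  choose σ hσ using hσ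
  have hclopen : ∀ U : Set (Pt R), IsClopen U → IsClopen (σ ⁻¹' U) := by
    intro U hU
    have h1 : σ ⁻¹' U = {y | ψ ⟨ind U hU, ind_mem hR hU⟩ y = 1} := by
      ext y
      simp only [mem_preimage, mem_ofPred_eq, hσ]
      by_cases hy : σ y ∈ U
      · simp only [hy, ind_apply_mem hU hy]
      · simp only [hy, ind_apply_notMem hU hy, zero_ne_one]
    have h2 : σ ⁻¹' U = {y | ψ ⟨ind U hU, ind_mem hR hU⟩ y ≠ 0} := by
      ext y
      simp only [mem_preimage, mem_ofPred_eq, hσ]
      by_cases hy : σ y ∈ U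
      · simp only [hy, ind_apply_mem hU hy, one_ne_zero, ne_eq, not_false_eq_true]
      · simp only [hy, ind_apply_notMem hU hy, ne_eq, not_true_eq_false]
    constructor
    · rw [h1]
      exact isClosed_eq (ψ _).continuous continuous_const
    · rw [h2]
      exact isOpen_ne_fun (ψ _).continuous continuous_const
  have hσc : Continuous σ := by
    rw [continuous_induced_rng]
    refine Continuous.prodMk ?_ (Continuous.prodMk ?_ ?_)
    · refine continuous_pi fun u => ?_
      rw [continuous_bool_rng true]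
      convert hclopen _ (isClopen_inP u) using 1
      ext y
      simp
    · refine continuous_pi fun i => ?_
      rw [continuous_bool_rng true]
      exact hclopen {z | lab z i = true} ((isClopen_discrete {true}).preimage
        ((continuous_apply i).comp continuous_lab))
    · refine continuous_pi fun u => ?_
      rw [continuous_bool_rng true]
      convert hclopen _ (isClopen_E u) using 1
      ext y
      simp
  let F : C(X, ℝ) := fC.comp ⟨σ, hσc⟩
  have hF : (ψ.symm F).1 = fC := by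
    ext z
    obtain ⟨y, hy⟩ := hom_eval_closed e he ((ev z).comp (ψ.symm : C(X, ℝ) →+* alg R))
    have hy' : ∀ h : C(X, ℝ), (ψ.symm h).1 z = h y := hy
    rw [hy' F]
    show f (σ y) = f z
    apply same_value hR
    intro a
    rw [← hσ y a, ← hy' (ψ a), ψ.symm_apply_apply]
  exact fC_notMem hR2 (hF ▸ (ψ.symm F).2)

end Pool.Agent.W642.HG
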